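import Pool.Agent.helper71.AL.BMCProof

/-!
# The Banach-Mazur criterion for Asymptotic `ℓ_1` spaces, with explicit constants
-/

set_option autoImplicit false

open Pool.Agent.helper71.BMC

namespace Pool.Agent.Results.MP_70ce06_an.BanachMazurCriterion

universe u v

/-- **The Banach-Mazur criterion for Asymptotic `ℓ_1` spaces.** -/
theorem result {X : Type u} [NormedAddCommGroup X] [NormedSpace ℝ X] [CompleteSpace X] (e : ℕ → X)
    (he : IsSchauderBasis e) :
    (∃ C : ℝ, BasisConstantLE e C) ∧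
    ∀ C K : ℝ, BasisConstantLE e C → 1 ≤ K →
      (∀ (n : ℕ) (F : Type) [NormedAddCommGroup F] [NormedSpace ℝ F] (b : Fin n → F), MemAsymptotic e b →
        bmDist (Submodule.span ℝ (Set.range b)) (PiLp 1 fun _ : Fin n => ℝ) ≤ K) →
      ∀ (n : ℕ) (F : Type v) [NormedAddCommGroup F] [NormedSpace ℝ F] (b : Fin n → F), MemAsymptotic e b →
        Equivalent (2 ^ 103 * C ^ 4 * K ^ 64) b (PiLp.basisFun 1 ℝ (Fin n)) :=
  main e he

end Pool.Agent.Results.MP_70ce06_an.BanachMazurCriterion
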